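import Pool.Agent.Helper62.MU.St

set_option autoImplicit false

open MeasureTheory Metric Set Filter Topology Polynomial
open scoped ContDiff

namespace Pool.Agent.Helper67.MU
open Pool.Agent.Helper62.MU Pool.Agent.Helper62.Mink

lemma sg_pos (x : ℝ) : 0 < sg x := by
  unfold sg; positivity

lemma sg_cont : Continuous sg := by
  unfold sg; fun_prop

lemma sg_sq (x : ℝ) : sg x ^ 2 = 1 + x ^ 2 := by
  unfold sg; exact Real.sq_sqrt (by positivity)

lemma one_le_sg (x : ℝ) : 1 ≤ sg x := by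
  have h := sg_sq x
  nlinarith [sg_pos x, sq_nonneg x]

lemma abs_le_sg (x : ℝ) : |x| ≤ sg x := by
  have h : |x| ^ 2 ≤ sg x ^ 2 := by
    rw [sg_sq, sq_abs]; linarith
  exact (sq_le_sq₀ (abs_nonneg x) (sg_pos x).le).mp h

lemma tau_abs (x : ℝ) : |x / sg x| ≤ 1 := by
  rw [abs_div, abs_of_pos (sg_pos x), div_le_one (sg_pos x)]
  exact abs_le_sg x

lemma tau_cont : Continuous (fun x : ℝ => x / sg x) :=
  continuous_id.div sg_cont (fun x => (sg_pos x).ne')

lemma Aa_cont (m : ℕ) (p : ℝ[X]) : Continuous (Aa m p) := by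
  unfold Aa
  refine Continuous.div ?_ (sg_cont.pow _) (fun x => pow_ne_zero _ (sg_pos x).ne')
  exact ((Polynomial.continuous p).comp tau_cont).sub
    (tau_cont.mul ((Polynomial.continuous p.derivative).comp tau_cont))

lemma Bb_cont (m : ℕ) (p : ℝ[X]) : Continuous (Bb m p) := by
  unfold Bb
  refine Continuous.div ?_ (sg_cont.pow _) (fun x => pow_ne_zero _ (sg_pos x).ne')
  exact (Polynomial.continuous p.derivative.derivative).comp tau_cont

lemma poly_bd (q : ℝ[X]) : ∃ K : ℝ, 0 ≤ K ∧ ∀ x : ℝ, |q.eval (x / sg x)| ≤ K := by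
  obtain ⟨K, hK⟩ := (isCompact_Icc (a := (-1 : ℝ)) (b := 1)).exists_bound_of_continuousOn
    (Polynomial.continuous q).continuousOn
  refine ⟨max K 0, le_max_right _ _, fun x => ?_⟩
  have h := hK (x / sg x) (abs_le.mp (tau_abs x))
  rw [Real.norm_eq_abs] at h
  exact h.trans (le_max_left _ _)

/-- the decay of the integrand needs one more power -/
lemma Aa_bd4 (m : ℕ) (hm : 1 ≤ m) (p : ℝ[X]) : ∃ K : ℝ, 0 ≤ K ∧ ∀ x : ℝ, |Aa m p x| ≤ K / sg x ^ 4 := by
  obtain ⟨K, hK0, hK⟩ := poly_bd p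
  obtain ⟨L, hL0, hL⟩ := poly_bd p.derivative
  refine ⟨K + L, by positivity, fun x => ?_⟩
  unfold Aa
  rw [abs_div, abs_of_pos (pow_pos (sg_pos x) _)]
  have h1 : |p.eval (x / sg x) - x / sg x * p.derivative.eval (x / sg x)| ≤ K + L := by
    refine (abs_sub _ _).trans ?_
    rw [abs_mul]
    have := mul_le_mul (tau_abs x) (hL x) (abs_nonneg _) zero_le_one
    have := hK x
    linarith
  have h2 : sg x ^ 4 ≤ sg x ^ (m + 3) := pow_le_pow_right₀ (one_le_sg x) (by omega)
  have h4 := sg_pos x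
  calc |p.eval (x / sg x) - x / sg x * p.derivative.eval (x / sg x)| / sg x ^ (m + 3)
      ≤ (K + L) / sg x ^ (m + 3) := by gcongr
    _ ≤ (K + L) / sg x ^ 4 := div_le_div_of_nonneg_left (by positivity) (pow_pos h4 _) h2

lemma Bb_bd4 (m : ℕ) (p : ℝ[X]) : ∃ K : ℝ, 0 ≤ K ∧ ∀ x : ℝ, |Bb m p x| ≤ K / sg x ^ 4 := by
  obtain ⟨K, hK0, hK⟩ := poly_bd p.derivative.derivative
  refine ⟨K, hK0, fun x => ?_⟩
  unfold Bb
  rw [abs_div, abs_of_pos (pow_pos (sg_pos x) _)]
  have h2 : sg x ^ 4 ≤ sg x ^ (m + 5) := pow_le_pow_right₀ (one_le_sg x) (by omega)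
  have h3 := hK x
  have h4 := sg_pos x
  calc |eval (x / sg x) (derivative (derivative p))| / sg x ^ (m + 5)
      ≤ K / sg x ^ (m + 5) := by gcongr
    _ ≤ K / sg x ^ 4 := div_le_div_of_nonneg_left hK0 (pow_pos h4 _) h2

theorem hOD (hTU : StTU) (hGP : StGP) (hGD : StGD) (hGL : StGL) : StOD := by
  intro m p a b a1 b1 b2 C hm hE hN ha hb hb1 ha1c hb2c hb2 hb10 hbd hQ
  obtain ⟨hTU1, ⟨C', hC'⟩, -⟩ := hTU m p hm hE hN
  have hgam := hGP m p hm hE hN
  obtain ⟨hl1, hl2, hl3, hl4⟩ := hGL m p hm hE hN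
  have hac : Continuous a := continuous_iff_continuousAt.mpr fun x => (ha x).continuousAt
  have hbc : Continuous b := continuous_iff_continuousAt.mpr fun x => (hb x).continuousAt
  have hb1c : Continuous b1 := continuous_iff_continuousAt.mpr fun x => (hb1 x).continuousAt
  have hC0 : 0 ≤ C := (abs_nonneg _).trans (hbd 0).2.2.1
  set φ : ℝ → ℝ := fun x => Aa m p x * a x + Bb m p x * b x with hφ
  have hφc : Continuous φ := ((Aa_cont m p).mul hac).add ((Bb_cont m p).mul hbc)
  -- integrability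
  have hφi : Integrable φ := by
    obtain ⟨K, hK0, hK⟩ := Aa_bd4 m hm p
    obtain ⟨L, hL0, hL⟩ := Bb_bd4 m p
    have hdom : Integrable (fun x : ℝ => (2 * C * (K + L)) * (1 + x ^ 2)⁻¹) :=
      integrable_inv_one_add_sq.const_mul _
    refine hdom.mono' hφc.aestronglyMeasurable (Filter.Eventually.of_forall fun x => ?_)
    have h1 := hbd x
    have hs := sg_pos x
    have hs1 := one_le_sg x
    have habs := abs_le_sg x
    have hx : 1 + |x| ≤ 2 * sg x := by linarith
    have hA : |Aa m p x * a x| ≤ K / sg x ^ 4 * (C * (2 * sg x)) := by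
      rw [abs_mul]
      refine mul_le_mul (hK x) (h1.1.trans (mul_le_mul_of_nonneg_left hx hC0)) (abs_nonneg _)
        (by positivity)
    have hB : |Bb m p x * b x| ≤ L / sg x ^ 4 * (C * (2 * sg x)) := by
      rw [abs_mul]
      refine mul_le_mul (hL x) (h1.2.1.trans (mul_le_mul_of_nonneg_left hx hC0)) (abs_nonneg _)
        (by positivity)
    rw [Real.norm_eq_abs, hφ]
    have hsum : |Aa m p x * a x + Bb m p x * b x| ≤
        K / sg x ^ 4 * (C * (2 * sg x)) + L / sg x ^ 4 * (C * (2 * sg x)) :=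
      (abs_add_le _ _).trans (add_le_add hA hB)
    refine hsum.trans ?_
    rw [← sg_sq x]
    have e1 : K / sg x ^ 4 * (C * (2 * sg x)) + L / sg x ^ 4 * (C * (2 * sg x)) =
        2 * C * (K + L) * (sg x ^ 3)⁻¹ := by
      field_simp
    rw [e1]
    have e2 : (sg x ^ 3)⁻¹ ≤ (sg x ^ 2)⁻¹ := by
      apply inv_anti₀ (by positivity)
      exact pow_le_pow_right₀ hs1 (by norm_num)
    exact mul_le_mul_of_nonneg_left e2 (by positivity)
  -- the function Z
  set Z : ℝ → ℝ := fun x => b x * dgam m p x - b1 x * gam m p x + (a x - b x) * (Uu m p x / x ^ 2) with hZ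
  have hZd : ∀ x : ℝ, 0 < x → HasDerivAt Z (φ x - b2 x * gam m p x -
      Uu m p x / x ^ 3 * (2 * (a x - b x) - x * (a1 x - b1 x) - m * b x)) x := by
    intro x hx
    obtain ⟨hg, hdg, hU, -⟩ := hGD m p x hx
    have hx0 : x ≠ 0 := hx.ne'
    have hx2 : HasDerivAt (fun y : ℝ => y ^ 2) (2 * x) x := by
      simpa using hasDerivAt_pow 2 x
    have hUx := hU.div hx2 (pow_ne_zero 2 hx0)
    have h := (((hb x).mul hdg).sub ((hb1 x).mul hg)).add (((ha x).sub (hb x)).mul hUx)
    refine h.congr_deriv ?_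
    simp only [hφ, Pi.sub_apply, Pi.div_apply]
    field_simp
    ring
  have hZle : ∀ x : ℝ, 0 < x → 0 ≤ φ x - (φ x - b2 x * gam m p x -
      Uu m p x / x ^ 3 * (2 * (a x - b x) - x * (a1 x - b1 x) - m * b x)) := by
    intro x hx
    have h1 := mul_nonneg (hb2 x) (hgam x hx)
    have hU0 : 0 ≤ Uu m p x := (hTU1 x hx).1.trans (hTU1 x hx).2
    have h2 : 0 ≤ Uu m p x / x ^ 3 := div_nonneg hU0 (by positivity)
    have h3 := mul_nonneg h2 (hQ x hx)
    linarith
  -- monotonicity
  set G : ℝ → ℝ := fun x => (∫ t in (0 : ℝ)..x, φ t) - Z x with hG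
  have hGd : ∀ x : ℝ, 0 < x → HasDerivAt G (φ x - (φ x - b2 x * gam m p x -
      Uu m p x / x ^ 3 * (2 * (a x - b x) - x * (a1 x - b1 x) - m * b x))) x := by
    intro x hx
    exact (hφc.integral_hasStrictDerivAt 0 x).hasDerivAt.sub (hZd x hx)
  have hGm : MonotoneOn G (Ioi 0) := by
    apply monotoneOn_of_deriv_nonneg (convex_Ioi 0)
    · exact fun x hx => (hGd x hx).continuousAt.continuousWithinAt
    · rw [interior_Ioi]
      exact fun x hx => (hGd x hx).differentiableAt.differentiableWithinAt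
    · rw [interior_Ioi]
      intro x hx
      rw [(hGd x hx).deriv]
      exact hZle x hx
  -- Z tends to 0 at 0
  have hZ0 : Tendsto Z (𝓝[>] 0) (𝓝 0) := by
    have t1 : Tendsto (fun x => b x * dgam m p x) (𝓝[>] 0) (𝓝 (b 0 * 0)) :=
      ((hbc.tendsto 0).mono_left nhdsWithin_le_nhds).mul hl2
    have t2 : Tendsto (fun x => b1 x * gam m p x) (𝓝[>] 0) (𝓝 (b1 0 * p.eval 0)) :=
      ((hb1c.tendsto 0).mono_left nhdsWithin_le_nhds).mul hl1
    have t3 : Tendsto (fun x => Uu m p x / x ^ 2) (𝓝[>] 0) (𝓝 0) := by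
      have hb0 : Tendsto (fun x : ℝ => C' * x) (𝓝[>] 0) (𝓝 0) := by
        have : Tendsto (fun x : ℝ => C' * x) (𝓝 0) (𝓝 (C' * 0)) := (continuous_const.mul continuous_id).tendsto 0
        rw [mul_zero] at this
        exact this.mono_left nhdsWithin_le_nhds
      refine squeeze_zero_norm' ?_ hb0
      filter_upwards [self_mem_nhdsWithin] with x hx
      have hx' : (0 : ℝ) < x := hx
      rw [Real.norm_eq_abs, abs_div, abs_of_pos (by positivity : (0 : ℝ) < x ^ 2), div_le_iff₀ (by positivity)]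
      have := (hC' x hx').2
      calc |Uu m p x| ≤ C' * x ^ 3 := this
        _ = C' * x * x ^ 2 := by ring
    have t4 : Tendsto (fun x => (a x - b x) * (Uu m p x / x ^ 2)) (𝓝[>] 0) (𝓝 ((a 0 - b 0) * 0)) :=
      (((hac.sub hbc).tendsto 0).mono_left nhdsWithin_le_nhds).mul t3
    have := (t1.sub t2).add t4
    rw [hb10] at this
    simpa using this
  -- Z tends to 0 at infinity
  have hZi : Tendsto Z atTop (𝓝 0) := by
    have t1 : Tendsto (fun x => b x * dgam m p x) atTop (𝓝 0) := by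
      have h0 : Tendsto (fun x => (2 * C) * |x * dgam m p x|) atTop (𝓝 0) := by
        have := hl4.abs.const_mul (2 * C)
        simpa using this
      refine squeeze_zero_norm' ?_ h0
      filter_upwards [eventually_ge_atTop 1] with x hx
      have hx0 : 0 < x := by linarith
      rw [Real.norm_eq_abs, abs_mul, abs_mul, abs_of_pos hx0]
      have h1 := (hbd x).2.1
      rw [abs_of_pos hx0] at h1
      have h2 : |b x| ≤ 2 * C * x := by nlinarith
      calc |b x| * |dgam m p x| ≤ 2 * C * x * |dgam m p x| :=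
            mul_le_mul_of_nonneg_right h2 (abs_nonneg _)
        _ = 2 * C * (x * |dgam m p x|) := by ring
    have t2 : Tendsto (fun x => b1 x * gam m p x) atTop (𝓝 0) := by
      have h0 : Tendsto (fun x => C * |gam m p x|) atTop (𝓝 0) := by
        have := hl3.abs.const_mul C
        simpa using this
      refine squeeze_zero_norm' ?_ h0
      filter_upwards with x
      rw [Real.norm_eq_abs, abs_mul]
      exact mul_le_mul_of_nonneg_right (hbd x).2.2.2 (abs_nonneg _)
    have t3 : Tendsto (fun x => (a x - b x) * (Uu m p x / x ^ 2)) atTop (𝓝 0) := by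
      have h0 : Tendsto (fun x : ℝ => (4 * C * |C'|) * x⁻¹) atTop (𝓝 0) := by
        have := tendsto_inv_atTop_zero.const_mul (4 * C * |C'|) (M := ℝ)
        simpa using this
      refine squeeze_zero_norm' ?_ h0
      filter_upwards [eventually_ge_atTop 1] with x hx
      have hx0 : 0 < x := by linarith
      rw [Real.norm_eq_abs, abs_mul, abs_div, abs_of_pos (by positivity : (0 : ℝ) < x ^ 2)]
      have h1 := (hbd x).1
      have h2 := (hbd x).2.1
      rw [abs_of_pos hx0] at h1 h2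
      have h3 : |a x - b x| ≤ 4 * C * x := by
        refine (abs_sub _ _).trans ?_
        nlinarith
      have h4 : |Uu m p x| ≤ |C'| := ((hC' x hx0).1).trans (le_abs_self _)
      calc |a x - b x| * (|Uu m p x| / x ^ 2) ≤ 4 * C * x * (|C'| / x ^ 2) := by
            gcongr
        _ = 4 * C * |C'| * x⁻¹ := by
            field_simp
    have := (t1.sub t2).add t3
    simpa using this
  -- the inequality for Z R
  have hkey : ∀ R : ℝ, 0 < R → Z R ≤ ∫ t in (0 : ℝ)..R, φ t := by
    intro R hR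
    have tG : Tendsto G (𝓝[>] 0) (𝓝 0) := by
      have hc : Continuous (fun x : ℝ => ∫ t in (0 : ℝ)..x, φ t) :=
        intervalIntegral.continuous_primitive (fun _ _ => hφc.intervalIntegrable _ _) 0
      have h0 : Tendsto (fun x : ℝ => ∫ t in (0 : ℝ)..x, φ t) (𝓝[>] 0) (𝓝 (∫ t in (0 : ℝ)..0, φ t)) :=
        (hc.tendsto 0).mono_left nhdsWithin_le_nhds
      rw [intervalIntegral.integral_same] at h0
      have := h0.sub hZ0
      simpa using this
    have hGR : 0 ≤ G R := by
      refine le_of_tendsto tG ?_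
      filter_upwards [Ioo_mem_nhdsGT hR] with x hx
      exact hGm hx.1 hR hx.2.le
    simp only [hG] at hGR
    linarith
  have hlim : Tendsto (fun R : ℝ => ∫ t in (0 : ℝ)..R, φ t) atTop (𝓝 (∫ t in Ioi (0 : ℝ), φ t)) :=
    intervalIntegral_tendsto_integral_Ioi 0 hφi.integrableOn tendsto_id
  refine le_of_tendsto_of_tendsto hZi hlim ?_
  filter_upwards [eventually_gt_atTop 0] with R hR
  exact hkey R hR

end Pool.Agent.Helper67.MU
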